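import Mathlib
import Pool.Agent.H45.KG.LFinal3

set_option autoImplicit false

/-! The random Koenig process: the threshold for the appearance of a perfect matching is
`(3/4 + o(1)) n log n`. -/

namespace Pool.Agent.Results.MP_a32cba_pr.Threshold

open Filter Topology

/-- For every fixed `ε > 0`, with `n = 2 r` and `m* = (3/4) n log n`: the probability that the graph
`G_m` of the random Koenig process has a perfect matching tends to `0` for
`m = ⌊(1 - ε) m*⌋` and to `1` for `m = ⌈(1 + ε) m*⌉`. -/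
theorem result (ε : ℝ) (hε : 0 < ε) :
    Tendsto (fun r : ℕ => H45KG.probPM (2 * r)
      ⌊(1 - ε) * ((3 / 4) * (((2 * r : ℕ) : ℝ) * Real.log ((2 * r : ℕ) : ℝ)))⌋₊) atTop (𝓝 0) ∧
    Tendsto (fun r : ℕ => H45KG.probPM (2 * r)
      ⌈(1 + ε) * ((3 / 4) * (((2 * r : ℕ) : ℝ) * Real.log ((2 * r : ℕ) : ℝ)))⌉₊) atTop (𝓝 1) :=
  ⟨H45KG.lower_tendsto ε hε, H45KG.upper_tendsto ε hε⟩

end Pool.Agent.Results.MP_a32cba_pr.Threshold
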